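import Pool.Agent.W610.HY.Stm

/-!
# Project HY (helper610): continuity of the extended logarithm of the resolvent
-/

set_option autoImplicit false

namespace Pool.Agent.W612.HY.MCON

open Pool.Agent.W610.HY Filter Topology

theorem res_lower {𝒜 : Type} [NormedRing 𝒜] [NormedAlgebra ℂ 𝒜] [CompleteSpace 𝒜] (a : 𝒜)
    (z w : ℂ) (hz : z ∈ resolventSet ℂ a) (hw : w ∈ spectrum ℂ a) :
    1 ≤ ‖z - w‖ * ‖resolvent a z‖ := by
  by_contra hlt
  rw [not_le] at hlt
  obtain ⟨u, hu⟩ := spectrum.mem_resolventSet_iff.1 hz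
  have hres : resolvent a z = (↑u⁻¹ : 𝒜) := by
    unfold resolvent
    rw [← hu, Ring.inverse_unit]
  have h1 : ‖(z - w) • (↑u⁻¹ : 𝒜)‖ < 1 := by
    rw [norm_smul, ← hres]
    exact hlt
  have h2 : IsUnit (1 - (z - w) • (↑u⁻¹ : 𝒜)) := (Units.oneSub _ h1).isUnit
  have h3 : algebraMap ℂ 𝒜 w - a = ↑u * (1 - (z - w) • (↑u⁻¹ : 𝒜)) := by
    rw [mul_sub, mul_one, mul_smul_comm, Units.mul_inv, hu, sub_smul,
      Algebra.algebraMap_eq_smul_one, Algebra.algebraMap_eq_smul_one]
    abel
  apply hw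
  rw [spectrum.mem_resolventSet_iff, h3]
  exact u.isUnit.mul h2

theorem main : Pool.Agent.W610.HY.MCON := by
  intro 𝒜 _ _ _ a
  rw [continuous_iff_continuousAt]
  intro z0
  by_cases hz0 : z0 ∈ spectrum ℂ a
  · have h0 : mm a z0 = ⊤ := if_pos hz0
    rw [ContinuousAt, h0, ENNReal.tendsto_nhds_top_iff_nat]
    intro n
    have hev : ∀ᶠ z in 𝓝 z0, z ∈ Metric.ball z0 (Real.exp (-((n : ℝ) + 1))) :=
      Metric.ball_mem_nhds z0 (Real.exp_pos _)
    filter_upwards [hev] with z hz
    by_cases hzs : z ∈ spectrum ℂ a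
    · have h1 : mm a z = ⊤ := if_pos hzs
      rw [h1]
      exact ENNReal.natCast_lt_top n
    · have h1 : mm a z = ENNReal.ofReal (Real.posLog ‖resolvent a z‖) := if_neg hzs
      have hzr : z ∈ resolventSet ℂ a := by
        by_contra h
        exact hzs h
      have h2 := res_lower a z z0 hzr hz0
      rw [mem_ball_iff_norm] at hz
      have h3 : Real.exp ((n : ℝ) + 1) ≤ ‖resolvent a z‖ := by
        have h4 : 1 ≤ Real.exp (-((n : ℝ) + 1)) * ‖resolvent a z‖ :=
          h2.trans (mul_le_mul_of_nonneg_right hz.le (norm_nonneg _))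
        have h5 := mul_le_mul_of_nonneg_left h4 (Real.exp_pos ((n : ℝ) + 1)).le
        rw [← mul_assoc, ← Real.exp_add, mul_one, add_neg_cancel, Real.exp_zero, one_mul] at h5
        exact h5
      have h6 : (n : ℝ) + 1 ≤ Real.posLog ‖resolvent a z‖ :=
        ((Real.le_log_iff_exp_le ((Real.exp_pos _).trans_le h3)).2 h3).trans (le_max_right _ _)
      rw [h1, ← ENNReal.ofReal_natCast, ENNReal.ofReal_lt_ofReal_iff_of_nonneg (Nat.cast_nonneg n)]
      linarith
  · have hz : z0 ∈ resolventSet ℂ a := by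
      by_contra h
      exact hz0 h
    have hopen : ∀ᶠ z in 𝓝 z0, z ∈ resolventSet ℂ a :=
      (spectrum.isOpen_resolventSet a).mem_nhds hz
    have hev : (fun z => ENNReal.ofReal (Real.log (max 1 ‖resolvent a z‖))) =ᶠ[𝓝 z0] mm a := by
      filter_upwards [hopen] with z hz
      have h1 : mm a z = ENNReal.ofReal (Real.posLog ‖resolvent a z‖) :=
        if_neg (fun h : z ∈ spectrum ℂ a => h hz)
      rw [h1, Real.posLog_eq_log_max_one (norm_nonneg _)]
    refine ContinuousAt.congr ?_ hev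
    have hc : ContinuousAt (fun z => resolvent a z) z0 :=
      (spectrum.hasDerivAt_resolvent_const_left hz).continuousAt
    have hm : ContinuousAt (fun z => max 1 ‖resolvent a z‖) z0 :=
      continuousAt_const.max hc.norm
    have hp : max 1 ‖resolvent a z0‖ ≠ 0 := (lt_of_lt_of_le one_pos (le_max_left _ _)).ne'
    exact ENNReal.continuous_ofReal.continuousAt.comp (hm.log hp)

end Pool.Agent.W612.HY.MCON
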